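import Mathlib

set_option autoImplicit false

open Filter Topology

namespace Pool.H21.EE

variable {E : Type} [NormedAddCommGroup E] [InnerProductSpace ℝ E]

/-- a convex body: a compact convex set with the origin in its interior -/
def Body (K : Set E) : Prop := IsCompact K ∧ Convex ℝ K ∧ 0 ∈ interior K

/-- the polar body -/
def polar (K : Set E) : Set E := {y | ∀ x ∈ K, inner ℝ x y ≤ 1}

/-- `(K + T) / 2` -/
def mean (K T : Set E) : Set E := {z | ∃ x ∈ K, ∃ y ∈ T, (2 : ℝ) • z = x + y}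

/-- `(A, H) ↦ ((A + H) / 2, ((A° + H°) / 2)°)` -/
def step (P : Set E × Set E) : Set E × Set E :=
  (mean P.1 P.2, polar (mean (polar P.1) (polar P.2)))

/-- the geometric mean: the intersection of the decreasing sets `A_1, A_2, ...` -/
def G (K T : Set E) : Set E := {x | ∀ m : ℕ, 1 ≤ m → x ∈ (step^[m] (K, T)).1}

/-- `F` is an ellipsoid `{x : ⟨u x, x⟩ ≤ 1}`, `u` symmetric and positive definite -/
def Ellipsoid (F : Set E) : Prop :=
  ∃ u : E →ₗ[ℝ] E, (∀ x y, inner ℝ (u x) y = inner ℝ x (u y)) ∧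
    (∀ x, x ≠ 0 → 0 < inner ℝ (u x) x) ∧ F = {x | inner ℝ (u x) x ≤ 1}

/-- the upper ellipsoidal envelope -/
def upper (K T : Set E) : Set E :=
  {x | ∀ A B : Set E, Ellipsoid A → Ellipsoid B → K ⊆ A → T ⊆ B → x ∈ G A B}

/-- the lower ellipsoidal envelope -/
def lower (K T : Set E) : Set E := polar (upper (polar K) (polar T))

/-- `K = -K`, and `E` is the direct sum of subspaces `V i` such that `K` is the `ℓ²`-sum of its
sections by the `V i` and `T` that of their multiples with the factors `l i` -/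
def Decomposes (K T : Set E) : Prop :=
  (∀ x ∈ K, -x ∈ K) ∧ ∃ (k : ℕ) (V : Fin k → Submodule ℝ E) (l : Fin k → ℝ),
    (∀ i, 0 < l i) ∧ (∀ z : E, ∃! x : Fin k → E, (∀ i, x i ∈ V i) ∧ ∑ i, x i = z) ∧
    ∀ x : Fin k → E, (∀ i, x i ∈ V i) →
      gauge K (∑ i, x i) ^ 2 = ∑ i, gauge K (x i) ^ 2 ∧
      gauge T (∑ i, x i) ^ 2 = ∑ i, (gauge K (x i) / l i) ^ 2

end Pool.H21.EE
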