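import Pool.Agent.H34.Env.Main
import Pool.Agent.H21.EE.Defs

set_option autoImplicit false

open Filter Topology
open scoped RealInnerProductSpace DirectSum

namespace Pool.H21.EE

variable {E : Type} [NormedAddCommGroup E] [InnerProductSpace ℝ E]

theorem body_iff (K : Set E) : Body K ↔ Pool.Agent.H34.Env.IsBody K :=
  ⟨fun h => ⟨h.1, h.2.1, h.2.2⟩, fun h => ⟨h.1, h.2, h.3⟩⟩

theorem polar_eq (K : Set E) : polar K = Pool.Agent.H34.Env.polar K := rfl

theorem mean_eq (K T : Set E) : mean K T = Pool.Agent.H34.Env.avg K T := by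
  ext z
  rw [Pool.Agent.H34.Env.mem_avg]
  constructor
  · rintro ⟨x, hx, y, hy, h⟩
    refine ⟨x, hx, y, hy, ?_⟩
    rw [← h, smul_smul]
    norm_num
  · rintro ⟨x, hx, y, hy, h⟩
    refine ⟨x, hx, y, hy, ?_⟩
    rw [← h, smul_smul]
    norm_num

theorem step_eq (K T : Set E) (m : ℕ) : step^[m] (K, T) = Pool.Agent.H34.Env.ah K T m := by
  induction m with
  | zero => rfl
  | succ m ih =>
    rw [Function.iterate_succ_apply', ih, Pool.Agent.H34.Env.ah]
    unfold step
    rw [mean_eq, mean_eq]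
    rfl

theorem G_eq (K T : Set E) : G K T = Pool.Agent.H34.Env.geomMean K T := by
  ext x
  unfold G Pool.Agent.H34.Env.geomMean
  simp only [Set.mem_iInter]
  constructor
  · intro h m
    have := h (m + 1) (by omega)
    rwa [step_eq] at this
  · intro h m hm
    obtain ⟨j, rfl⟩ : ∃ j, m = j + 1 := ⟨m - 1, by omega⟩
    rw [step_eq]
    exact h j

variable [FiniteDimensional ℝ E]

theorem ell_iff (F : Set E) :
    Ellipsoid F ↔ ∃ u : E →L[ℝ] E, Pool.Agent.H34.Env.IsPD u ∧
      F = Pool.Agent.H34.Env.ellipsoid u := by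
  constructor
  · rintro ⟨u, h1, h2, h3⟩
    exact ⟨LinearMap.toContinuousLinearMap u, ⟨h1, h2⟩, h3⟩
  · rintro ⟨u, ⟨h1, h2⟩, h3⟩
    exact ⟨u.toLinearMap, h1, h2, h3⟩

theorem upper_eq (K T : Set E) : upper K T = Pool.Agent.H34.Env.upperEnv K T := by
  ext x
  constructor
  · intro h u v hu hv hK hT
    have := h _ _ ((ell_iff _).2 ⟨u, hu, rfl⟩) ((ell_iff _).2 ⟨v, hv, rfl⟩) hK hT
    rwa [G_eq] at this
  · intro h A B hA hB hK hT
    obtain ⟨u, hu, rfl⟩ := (ell_iff A).1 hA
    obtain ⟨v, hv, rfl⟩ := (ell_iff B).1 hB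
    rw [G_eq]
    exact h u v hu hv hK hT

theorem lower_eq (K T : Set E) : lower K T = Pool.Agent.H34.Env.lowerEnv K T := by
  unfold lower Pool.Agent.H34.Env.lowerEnv
  rw [upper_eq]
  rfl

omit [FiniteDimensional ℝ E] in
theorem internal_iff {k : ℕ} (V : Fin k → Submodule ℝ E) :
    DirectSum.IsInternal V ↔ ∀ z : E, ∃! x : Fin k → E, (∀ i, x i ∈ V i) ∧ ∑ i, x i = z := by
  classical
  have hsum : ∀ d : ⨁ i, V i, DirectSum.coeAddMonoidHom V d = ∑ i, (d i : E) :=
    Pool.Agent.H34.Env.coe_eq_sum V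
  have hmk : ∀ x : Fin k → E, (∀ i, x i ∈ V i) → ∃ d : ⨁ i, V i, ∀ i, (d i : E) = x i := by
    intro x hx
    refine ⟨(DirectSum.linearEquivFunOnFintype ℝ (Fin k) (fun i => V i)).symm
      (fun i => ⟨x i, hx i⟩), ?_⟩
    intro i
    have := congrFun ((DirectSum.linearEquivFunOnFintype ℝ (Fin k) (fun i => V i)).apply_symm_apply
      (fun i => (⟨x i, hx i⟩ : V i))) i
    exact congrArg Subtype.val this
  constructor
  · intro h z
    obtain ⟨d, hd⟩ := h.2 z
    refine ⟨fun i => (d i : E), ⟨fun i => (d i).2, by rw [← hsum]; exact hd⟩, ?_⟩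
    rintro x ⟨hx, hz⟩
    obtain ⟨d', hd'⟩ := hmk x hx
    have h1 : DirectSum.coeAddMonoidHom V d' = DirectSum.coeAddMonoidHom V d := by
      rw [hsum d']
      have : ∑ i, (d' i : E) = z := by
        rw [← hz]
        exact Finset.sum_congr rfl fun i _ => hd' i
      rw [this]
      exact hd.symm
    have h2 : d' = d := h.1 h1
    funext i
    rw [← hd' i, h2]
  · intro h
    constructor
    · intro d d' hdd
      have hdd2 : DirectSum.coeAddMonoidHom V d = DirectSum.coeAddMonoidHom V d' := hdd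
      rw [hsum, hsum] at hdd2
      obtain ⟨x, _, hx⟩ := h (∑ i, (d' i : E))
      have e1 := hx (fun i => (d i : E)) ⟨fun i => (d i).2, hdd2⟩
      have e2 := hx (fun i => (d' i : E)) ⟨fun i => (d' i).2, rfl⟩
      have e3 : (fun i => (d i : E)) = fun i => (d' i : E) := e1.trans e2.symm
      refine DFinsupp.ext fun i => Subtype.ext (congrFun e3 i)
    · intro z
      obtain ⟨x, ⟨hx, hz⟩, _⟩ := h z
      obtain ⟨d, hd⟩ := hmk x hx
      refine ⟨d, ?_⟩
      rw [← hz]
      have := hsum d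
      refine this.trans ?_
      exact Finset.sum_congr rfl fun i _ => hd i

omit [FiniteDimensional ℝ E] in
theorem dec_iff (K T : Set E) : Decomposes K T ↔ Pool.Agent.H34.Env.Decomposes K T := by
  constructor
  · rintro ⟨h0, k, V, l, hl, hV, h⟩
    refine ⟨h0, k, V, l, (internal_iff V).2 hV, hl, fun x => ?_⟩
    exact h (fun i => (x i : E)) (fun i => (x i).2)
  · rintro ⟨h0, k, V, l, hV, hl, h⟩
    refine ⟨h0, k, V, l, hl, (internal_iff V).1 hV, fun x hx => ?_⟩
    exact h (fun i => ⟨x i, hx i⟩)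

theorem main (K T : Set E) (hK : Body K) (hT : Body T) :
    Tendsto (fun m => Metric.hausdorffDist (step^[m] (K, T)).1 (G K T)) atTop (𝓝 0) ∧
    Tendsto (fun m => Metric.hausdorffDist (step^[m] (K, T)).2 (G K T)) atTop (𝓝 0) ∧
    ((lower K T = G K T ∧ G K T = upper K T) ↔ Decomposes K T) := by
  have hK' := (body_iff K).1 hK
  have hT' := (body_iff T).1 hT
  have h1 := Pool.Agent.H34.Env.ah_tendsto hK' hT'
  simp only [step_eq, G_eq, lower_eq, upper_eq]
  refine ⟨h1.1, h1.2, ?_⟩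
  rw [dec_iff]
  exact Pool.Agent.H34.Env.classification hK' hT'

end Pool.H21.EE
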